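import Pool.Agent.R765.BallCone

/-!
# Cone monotone homeomorphisms between smooth structures on `S¹ × S³` and `S¹ ×~ S³`

Let `X` be one of the two topological 4-manifolds `S¹ × S³` and `S¹ ×~ S³` (the twisted product, as
the unit sphere bundle of the sum of the Moebius line bundle and a trivial bundle of rank three),
and let `M` and `N` be smooth 4-manifolds homeomorphic to `X`. Let `g : M → N` be a homeomorphism
such that at every point `x` the map `g` is a local diffeomorphism or cone monotone: in smooth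
coordinates around `x` and around `g x`, for every direction `v` the increments of `g` in the
directions near `v` lie in a proper cone (a cone `r ‖w‖ < ℓ w` with `r > 0` and a linear functional
`ℓ`). Then `M` and `N` are diffeomorphic, by a diffeomorphism with graph in a given neighbourhood of
the graph of `g`.

The condition does not depend on the coordinates, and it allows points at which `g` is not
differentiable; nothing is assumed about the set of these points.
-/

set_option autoImplicit false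

open Set Filter Topology Metric Function
open scoped Manifold ContDiff

noncomputable section

namespace Pool.Agent.Results.MP_6db3ee_gt.ConeMonotone

/-- `ℝ⁴` -/
abbrev R4 : Type := EuclideanSpace ℝ (Fin 4)

/-- the product `S¹ × S³` -/
abbrev Prod13 : Type := Circle × Metric.sphere (0 : R4) 1

/-- the twisted product: the unit sphere bundle of the sum of the Moebius line bundle over the
circle (the line over `p` consists of the `z` with `z ^ 2 = |z| ^ 2 p`) and a trivial bundle of
rank three -/
abbrev Twisted13 : Type := {p : ℂ × ℂ × EuclideanSpace ℝ (Fin 3) //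
  ‖p.1‖ = 1 ∧ p.2.1 ^ 2 = ((‖p.2.1‖ ^ 2 : ℝ) : ℂ) * p.1 ∧ ‖p.2.1‖ ^ 2 + ‖p.2.2‖ ^ 2 = 1}

section defs

variable {M N : Type} [TopologicalSpace M] [TopologicalSpace N] [ChartedSpace R4 M]
  [ChartedSpace R4 N]

/-- `f` is a local diffeomorphism (of class `C^∞`, with smooth inverse) at `x` -/
def LocDiff (f : M → N) (x : M) : Prop := IsLocalDiffeomorphAt (𝓡 4) (𝓡 4) ∞ f x

/-- For every direction `v` the increments of `h` near `0` in the directions near `v` lie in a
proper cone: there are `r > 0` and a linear functional `ℓ` with `r ‖h q - h p‖ < ℓ (h q - h p)` for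
all `p`, `q` in the ball of radius `r` about `0` such that `‖q - p - t v‖ ≤ r t` for some
`t > 0`. -/
def ConeIncrements (h : R4 → R4) : Prop :=
  ∀ v : R4, v ≠ 0 → ∃ (r : ℝ) (ℓ : R4 →L[ℝ] ℝ), 0 < r ∧ ∀ p q : R4, ‖p‖ ≤ r → ‖q‖ ≤ r →
    ∀ t : ℝ, 0 < t → ‖q - p - t • v‖ ≤ r * t → r * ‖h q - h p‖ < ℓ (h q - h p)

/-- `f` is cone monotone at `x`: it has increments in proper cones in some smooth coordinates
around `x = A 0` and around `f x` (`A` is a smooth parametrization around `x`, `B` a smooth
coordinate system around `f x`). -/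
def ConeMonotone (f : M → N) (x : M) : Prop :=
  ∃ (A : R4 → M) (B : N → R4), A 0 = x ∧ LocDiff A 0 ∧ LocDiff B (f x) ∧
    ConeIncrements fun p => B (f (A p))

end defs

/-- `Twisted13` is compact -/
theorem twisted_compact : CompactSpace Twisted13 := by
  refine isCompact_iff_compactSpace.1 ?_
  have hcl : IsClosed {p : ℂ × ℂ × EuclideanSpace ℝ (Fin 3) |
      ‖p.1‖ = 1 ∧ p.2.1 ^ 2 = ((‖p.2.1‖ ^ 2 : ℝ) : ℂ) * p.1 ∧ ‖p.2.1‖ ^ 2 + ‖p.2.2‖ ^ 2 = 1} := by
    refine IsClosed.inter ?_ (IsClosed.inter ?_ ?_)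
    · exact isClosed_eq (by fun_prop) (by fun_prop)
    · exact isClosed_eq (by fun_prop) (by fun_prop)
    · exact isClosed_eq (by fun_prop) (by fun_prop)
  refine (((isCompact_closedBall (0 : ℂ) 1).prod ((isCompact_closedBall (0 : ℂ) 1).prod
    (isCompact_closedBall (0 : EuclideanSpace ℝ (Fin 3)) 1)))).of_isClosed_subset hcl ?_
  rintro ⟨a, b, c⟩ ⟨h1, -, h3⟩
  simp only at h1 h3
  simp only [Set.mem_prod, mem_closedBall_zero_iff]
  refine ⟨h1.le, ?_, ?_⟩
  · nlinarith [norm_nonneg b, norm_nonneg c, sq_nonneg ‖c‖]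
  · nlinarith [norm_nonneg b, norm_nonneg c, sq_nonneg ‖b‖]

theorem result (M N : Type) [TopologicalSpace M] [TopologicalSpace N]
    [ChartedSpace R4 M] [ChartedSpace R4 N] [IsManifold (𝓡 4) ∞ M] [IsManifold (𝓡 4) ∞ N]
    (hM : Nonempty (M ≃ₜ Prod13) ∨ Nonempty (M ≃ₜ Twisted13))
    (g : M ≃ₜ N) (hg : ∀ x, LocDiff g x ∨ ConeMonotone g x)
    (O : Set (M × N)) (hO : IsOpen O) (hgO : ∀ x, (x, g x) ∈ O) :
    ∃ Φ : Diffeomorph (𝓡 4) (𝓡 4) M N ∞, ∀ x, (x, Φ x) ∈ O := by
  have hT : T2Space M ∧ CompactSpace M := by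
    rcases hM with ⟨⟨e⟩⟩ | ⟨⟨e⟩⟩
    · exact ⟨e.symm.t2Space, e.symm.compactSpace⟩
    · have := twisted_compact
      exact ⟨e.symm.t2Space, e.symm.compactSpace⟩
  have := hT.1
  have := hT.2
  refine Pool.Agent.R765.coneMonotoneClosed 4 M N g (fun x => ?_) O hO hgO
  rcases hg x with h | ⟨A, B, h1, h2, h3, h4⟩
  · exact Or.inl h
  · exact Or.inr ⟨B, h3, A, h1, h2, h4⟩

end Pool.Agent.Results.MP_6db3ee_gt.ConeMonotone
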