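import Pool.Agent.R765.ClosedCO

/-!
# Smooth homeomorphisms of corank at most one between smooth structures on `S¹ × S³` and `S¹ ×~ S³`

Let `X` be one of the two topological 4-manifolds `S¹ × S³` and `S¹ ×~ S³` (the twisted product, as
the unit sphere bundle of the sum of the Moebius line bundle and a trivial bundle of rank three),
and let `M` and `N` be smooth 4-manifolds homeomorphic to `X`. If there is a smooth homeomorphism
`g : M → N`, whose inverse need not be differentiable, such that the derivative of `g` has rank at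
least three everywhere, then `M` and `N` are diffeomorphic, by a diffeomorphism with graph in a
given neighbourhood of the graph of `g`.
-/

set_option autoImplicit false

open Set Filter Topology Metric Function
open scoped Manifold ContDiff

noncomputable section

namespace Pool.Agent.Results.MP_6db3ee_gt.SmoothCorankOne

/-- `ℝ⁴` -/
abbrev R4 : Type := EuclideanSpace ℝ (Fin 4)

/-- the product `S¹ × S³` -/
abbrev Prod13 : Type := Circle × Metric.sphere (0 : R4) 1

/-- the twisted product: the unit sphere bundle of the sum of the Moebius line bundle over the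
circle (the line over `p` consists of the `z` with `z ^ 2 = |z| ^ 2 p`) and a trivial bundle of
rank three -/
abbrev Twisted13 : Type := {p : ℂ × ℂ × EuclideanSpace ℝ (Fin 3) //
  ‖p.1‖ = 1 ∧ p.2.1 ^ 2 = ((‖p.2.1‖ ^ 2 : ℝ) : ℂ) * p.1 ∧ ‖p.2.1‖ ^ 2 + ‖p.2.2‖ ^ 2 = 1}

section defs

variable {M N : Type} [TopologicalSpace M] [TopologicalSpace N] [ChartedSpace R4 M]
  [ChartedSpace R4 N]

/-- `f` is a map of class `C^∞` -/
def Smooth (f : M → N) : Prop := ContMDiff (𝓡 4) (𝓡 4) ∞ f

/-- the derivative of `f` at `x`, as a linear map from `ℝ⁴` to `ℝ⁴` (in the preferred charts) -/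
def der (f : M → N) (x : M) : R4 →L[ℝ] R4 := mfderiv (𝓡 4) (𝓡 4) f x

end defs

/-- the rank of a linear map -/
def rank (L : R4 →L[ℝ] R4) : ℕ := Module.finrank ℝ (LinearMap.range L.toLinearMap)

/-- `Twisted13` is compact -/
theorem twisted_compact : CompactSpace Twisted13 := by
  refine isCompact_iff_compactSpace.1 ?_
  have hcl : IsClosed {p : ℂ × ℂ × EuclideanSpace ℝ (Fin 3) |
      ‖p.1‖ = 1 ∧ p.2.1 ^ 2 = ((‖p.2.1‖ ^ 2 : ℝ) : ℂ) * p.1 ∧ ‖p.2.1‖ ^ 2 + ‖p.2.2‖ ^ 2 = 1} := by
    refine IsClosed.inter ?_ (IsClosed.inter ?_ ?_)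
    · exact isClosed_eq (by fun_prop) (by fun_prop)
    · exact isClosed_eq (by fun_prop) (by fun_prop)
    · exact isClosed_eq (by fun_prop) (by fun_prop)
  refine (((isCompact_closedBall (0 : ℂ) 1).prod ((isCompact_closedBall (0 : ℂ) 1).prod
    (isCompact_closedBall (0 : EuclideanSpace ℝ (Fin 3)) 1)))).of_isClosed_subset hcl ?_
  rintro ⟨a, b, c⟩ ⟨h1, -, h3⟩
  simp only at h1 h3
  simp only [Set.mem_prod, mem_closedBall_zero_iff]
  refine ⟨h1.le, ?_, ?_⟩
  · nlinarith [norm_nonneg b, norm_nonneg c, sq_nonneg ‖c‖]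
  · nlinarith [norm_nonneg b, norm_nonneg c, sq_nonneg ‖b‖]

theorem result (M N : Type) [TopologicalSpace M] [TopologicalSpace N]
    [ChartedSpace R4 M] [ChartedSpace R4 N] [IsManifold (𝓡 4) ∞ M] [IsManifold (𝓡 4) ∞ N]
    (hM : Nonempty (M ≃ₜ Prod13) ∨ Nonempty (M ≃ₜ Twisted13))
    (g : M ≃ₜ N) (hg : Smooth g) (hr : ∀ x, 3 ≤ rank (der g x))
    (O : Set (M × N)) (hO : IsOpen O) (hgO : ∀ x, (x, g x) ∈ O) :
    ∃ Φ : Diffeomorph (𝓡 4) (𝓡 4) M N ∞, ∀ x, (x, Φ x) ∈ O := by
  have hT : T2Space M ∧ CompactSpace M := by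
    rcases hM with ⟨⟨e⟩⟩ | ⟨⟨e⟩⟩
    · exact ⟨e.symm.t2Space, e.symm.compactSpace⟩
    · have := twisted_compact
      exact ⟨e.symm.t2Space, e.symm.compactSpace⟩
  have := hT.1
  have := hT.2
  exact Pool.Agent.R765.corankOneClosed 3 M N g hg hr O hO hgO

end Pool.Agent.Results.MP_6db3ee_gt.SmoothCorankOne
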