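import Pool.Agent.R769.TSAux

/-!
# Homeomorphisms with three smooth linear coordinates and smooth structures on `S¹ × S³`, `S¹ ×~ S³`

Let `X` be one of the two topological 4-manifolds `S¹ × S³` and `S¹ ×~ S³` (the twisted product, as
the unit sphere bundle of the sum of the Moebius line bundle and a trivial bundle of rank three),
and let `M` and `N` be smooth 4-manifolds homeomorphic to `X`. Let `h : M → N` be a homeomorphism
such that all points at which `h` is not a local diffeomorphism are mapped into the domain `V` of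
one smooth chart `ψ` of `N`. Suppose that near each of these points three linear coordinates of
`ψ ∘ h` are smooth and independent; they depend on the point, and the remaining coordinate is only
continuous. Then `M` and `N` are diffeomorphic, by a diffeomorphism equal to `h` outside a compact
subset of the preimage of `V`.
-/

set_option autoImplicit false

open Set Filter Topology Metric Function
open scoped Manifold ContDiff

namespace Pool.Agent.Results.MP_6db3ee_gt.ThreeSmoothCoordinates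

/-- `ℝ⁴` -/
abbrev R4 : Type := EuclideanSpace ℝ (Fin 4)

/-- the product `S¹ × S³` -/
abbrev Prod13 : Type := Circle × Metric.sphere (0 : R4) 1

/-- the twisted product: the unit sphere bundle of the sum of the Moebius line bundle over the
circle (the line over `p` consists of the `z` with `z ^ 2 = |z| ^ 2 p`) and a trivial bundle of
rank three -/
abbrev Twisted13 : Type := {p : ℂ × ℂ × EuclideanSpace ℝ (Fin 3) //
  ‖p.1‖ = 1 ∧ p.2.1 ^ 2 = ((‖p.2.1‖ ^ 2 : ℝ) : ℂ) * p.1 ∧ ‖p.2.1‖ ^ 2 + ‖p.2.2‖ ^ 2 = 1}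

section defs

variable {M N : Type} [TopologicalSpace M] [TopologicalSpace N] [ChartedSpace R4 M]
  [ChartedSpace R4 N]

/-- `f` is a local diffeomorphism (of class `C^∞`) at `x` -/
def LocDiff (f : M → N) (x : M) : Prop := IsLocalDiffeomorphAt (𝓡 4) (𝓡 4) ∞ f x

/-- `f` is a diffeomorphism (of class `C^∞`) -/
def IsDiffeo (f : M → N) : Prop := ∃ Φ : Diffeomorph (𝓡 4) (𝓡 4) M N ∞, ∀ x, Φ x = f x

/-- `ψ` is a smooth chart with domain `V`: it restricts to a diffeomorphism of the open set `V` onto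
an open subset of `ℝ⁴` -/
def IsChart (ψ : N → R4) (V : Set N) : Prop := IsOpen V ∧ InjOn ψ V ∧ ∀ y ∈ V, LocDiff ψ y

/-- near `x` three linear coordinates `P` of `f` agree with three linear coordinates `Q` of a smooth
chart `e`; that is, they are smooth near `x` with independent differentials at `x` -/
def ThreeSmooth (f : M → R4) (x : M) : Prop :=
  ∃ (P Q : R4 →L[ℝ] EuclideanSpace ℝ (Fin 3)) (e : M → R4), Surjective Q ∧ LocDiff e x ∧
    ∀ᶠ y in 𝓝 x, P (f y) = Q (e y)

/-- `Φ` agrees with `h` outside a compact subset of the preimage of `V` -/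
def AgreesOff (Φ h : M → N) (V : Set N) : Prop :=
  ∃ K : Set M, IsCompact K ∧ K ⊆ h ⁻¹' V ∧ ∀ x, x ∉ K → Φ x = h x

end defs

/-- `Twisted13` is compact -/
theorem twisted_compact : CompactSpace Twisted13 := by
  refine isCompact_iff_compactSpace.1 ?_
  have hcl : IsClosed {p : ℂ × ℂ × EuclideanSpace ℝ (Fin 3) |
      ‖p.1‖ = 1 ∧ p.2.1 ^ 2 = ((‖p.2.1‖ ^ 2 : ℝ) : ℂ) * p.1 ∧ ‖p.2.1‖ ^ 2 + ‖p.2.2‖ ^ 2 = 1} := by
    refine IsClosed.inter ?_ (IsClosed.inter ?_ ?_)
    · exact isClosed_eq (by fun_prop) (by fun_prop)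
    · exact isClosed_eq (by fun_prop) (by fun_prop)
    · exact isClosed_eq (by fun_prop) (by fun_prop)
  refine (((isCompact_closedBall (0 : ℂ) 1).prod ((isCompact_closedBall (0 : ℂ) 1).prod
    (isCompact_closedBall (0 : EuclideanSpace ℝ (Fin 3)) 1)))).of_isClosed_subset hcl ?_
  rintro ⟨a, b, c⟩ ⟨h1, -, h3⟩
  simp only at h1 h3
  simp only [Set.mem_prod, mem_closedBall_zero_iff]
  refine ⟨h1.le, ?_, ?_⟩
  · nlinarith [norm_nonneg b, norm_nonneg c, sq_nonneg ‖c‖]
  · nlinarith [norm_nonneg b, norm_nonneg c, sq_nonneg ‖b‖]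

theorem result (M N : Type) [TopologicalSpace M] [TopologicalSpace N]
    [ChartedSpace R4 M] [ChartedSpace R4 N] [IsManifold (𝓡 4) ∞ M] [IsManifold (𝓡 4) ∞ N]
    (hM : Nonempty (M ≃ₜ Prod13) ∨ Nonempty (M ≃ₜ Twisted13)) (h : M ≃ₜ N)
    (V : Set N) (ψ : N → R4) (hψ : IsChart ψ V)
    (hc : ∀ x, ¬ LocDiff h x → h x ∈ V ∧ ThreeSmooth (fun y => ψ (h y)) x) :
    ∃ Φ : M → N, IsDiffeo Φ ∧ AgreesOff Φ h V := by
  classical
  have hT : T2Space M ∧ CompactSpace M := by
    rcases hM with ⟨⟨e⟩⟩ | ⟨⟨e⟩⟩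
    · exact ⟨e.symm.t2Space, e.symm.compactSpace⟩
    · have := twisted_compact
      exact ⟨e.symm.t2Space, e.symm.compactSpace⟩
  have := hT.1
  have := hT.2
  rcases isEmpty_or_nonempty N with hNe | hNe
  · have hMe : IsEmpty M := h.toEquiv.isEmpty
    refine ⟨h, ⟨{ toEquiv := h.toEquiv
                  contMDiff_toFun := fun x => (hMe.false x).elim
                  contMDiff_invFun := fun x => (hNe.false x).elim }, fun x => rfl⟩, ∅,
      isCompact_empty, empty_subset _, fun x _ => rfl⟩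
  obtain ⟨Ψ, hΨs, hΨ⟩ := Pool.Agent.R769.exists_pd (n := 4) V hψ.1 ψ hψ.2.1 hψ.2.2
  subst hΨs
  obtain ⟨Φ, K, hK1, hK2, hK3⟩ := Pool.Agent.R769.TS.aux M N h Ψ (fun x hx => by
    obtain ⟨h1, P, Q, e, hQ, he, heq⟩ := hc x hx
    refine ⟨h1, Pool.Agent.R769.TS.threeSmooth_of_eq P Q e hQ he ?_⟩
    filter_upwards [heq] with y hy
    rw [hΨ]
    exact hy)
  exact ⟨Φ, ⟨Φ, fun _ => rfl⟩, K, hK1, hK2, hK3⟩

end Pool.Agent.Results.MP_6db3ee_gt.ThreeSmoothCoordinates
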